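import Mathlib
import Pool.Agent.helper91.RB.Spec1

/-!
# Row rb:FDX (MP_24e2e7_nt): the fundamental domain of the unit lattice
-/

set_option autoImplicit false

namespace Pool.Agent.RB

open NumberField NumberField.InfinitePlace NumberField.Units NumberField.Units.dirichletUnitTheorem
open MeasureTheory Filter Topology Module
open scoped nonZeroDivisors Real Classical Pointwise

theorem FDX_inv (K : Type) [Field K] [NumberField K] :
    VAddInvariantMeasure (unitLattice K) (logSpace K) volume :=
  inferInstanceAs (VAddInvariantMeasure (unitLattice K).toAddSubgroup (logSpace K) volume)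

theorem FDX_isAdd (K : Type) [Field K] [NumberField K] :
    IsAddFundamentalDomain (unitLattice K) (FD K) (volume : Measure (logSpace K)) :=
  ZLattice.isAddFundamentalDomain (basisUnitLattice K) volume

theorem FDX_isAdd_neg (K : Type) [Field K] [NumberField K] :
    IsAddFundamentalDomain (unitLattice K) ((fun z : logSpace K => -z) ⁻¹' FD K)
      (volume : Measure (logSpace K)) := by
  refine (FDX_isAdd K).preimage_of_equiv (f := fun z : logSpace K => -z)
    (Measure.measurePreserving_neg (volume : Measure (logSpace K))).quasiMeasurePreserving
    (e := fun l : unitLattice K => -l) (neg_involutive.bijective) ?_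
  intro g x
  simp only [Submodule.vadd_def, vadd_eq_add, Submodule.coe_neg]
  abel

/-- ROW rb:FDX. The fundamental domain of the unit lattice: it is measurable, bounded, of positive
finite volume; reflection invariance of the integral of an invariant function; unfolding. -/
theorem FDX : FDX_stmt := by
  intro K _ _
  have hF := FDX_isAdd K
  have := FDX_inv K
  have hb : Bornology.IsBounded (FD K) := ZSpan.fundamentalDomain_isBounded _
  have hm : MeasurableSet (FD K) := ZSpan.fundamentalDomain_measurableSet _
  have hlt : volume (FD K) < ⊤ := hb.measure_lt_top
  have hne : volume (FD K) ≠ 0 := ZSpan.measure_fundamentalDomain_ne_zero _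
  refine ⟨hF, hm, hb, ENNReal.toReal_pos hne hlt.ne, hlt, ?_, ?_⟩
  · intro g hg
    have h1 : ∫ z in (fun z : logSpace K => -z) ⁻¹' FD K, g z = ∫ z in FD K, g z :=
      (FDX_isAdd_neg K).setIntegral_eq hF (fun l z => hg l z)
    have h2 := (Measure.measurePreserving_neg (volume : Measure (logSpace K))).setIntegral_preimage_emb
      (MeasurableEquiv.neg (logSpace K)).measurableEmbedding (fun z => g (-z)) (FD K)
    rw [← h2, ← h1]
    refine setIntegral_congr_fun (hm.preimage measurable_neg) ?_
    intro z _
    simp only [neg_neg]
  · intro g hg
    have h1 : HasSum (fun l : unitLattice K => ∫ z in l +ᵥ FD K, g z) (∫ z, g z) := by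
      have h2 := hF.sum_restrict
      have h3 : Integrable g (Measure.sum fun l : unitLattice K => volume.restrict (l +ᵥ FD K)) := by
        rw [h2]; exact hg
      have h4 := hasSum_integral_measure h3
      rw [h2] at h4
      exact h4
    have h5 : (fun l : unitLattice K => ∫ z in l +ᵥ FD K, g z) =
        fun l : unitLattice K => ∫ z in FD K, g ((l : logSpace K) + z) := by
      funext l
      exact (measurePreserving_vadd l (volume : Measure (logSpace K))).setIntegral_image_emb
        (measurableEmbedding_const_vadd l) _ _
    rw [h5] at h1
    exact ⟨h1.summable, h1.tsum_eq⟩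

end Pool.Agent.RB
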