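import Mathlib
import Pool.Agent.helper91.RB.Spec3

/-!
# Row rb:H90 (MP_24e2e7_nt): Hilbert 90 for a quadratic extension
-/

set_option autoImplicit false

namespace Pool.Agent.RB

open NumberField IsDedekindDomain Module
open scoped nonZeroDivisors Real Classical

/-- ROW rb:H90. An element of norm 1 is of the form `y / c y`. -/
theorem H90 (hCCJ : CCJ_stmt) : H90_stmt := by
  intro k K _ _ _ _ _ _ _ _ c hc hck x hx
  have hcc : ∀ x : K, c (c x) = x := (hCCJ k K c hc hck).2.1
  have hx0 : x ≠ 0 := by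
    intro h
    rw [h, zero_mul] at hx
    exact zero_ne_one hx
  have hcx : c x = x⁻¹ := eq_inv_of_mul_eq_one_right hx
  by_cases h1 : x = -1
  · obtain ⟨a, ha⟩ : ∃ a : K, c a ≠ a := by
      by_contra h
      push Not at h
      exact hc (RingEquiv.ext h)
    refine ⟨a - c a, sub_ne_zero.2 (Ne.symm ha), ?_⟩
    have h2 : c (a - c a) = -(a - c a) := by
      rw [map_sub, hcc]; ring
    rw [h2, h1, div_neg, div_self (sub_ne_zero.2 (Ne.symm ha))]
  · have h2 : (1 : K) + x ≠ 0 := by
      intro h
      exact h1 (eq_neg_of_add_eq_zero_right h)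
    refine ⟨1 + x, h2, ?_⟩
    rw [map_add, map_one, hcx]
    have h3 : (1 : K) + x⁻¹ = (1 + x) / x := by
      field_simp
      ring
    rw [h3, div_div_eq_mul_div, mul_div_assoc, mul_comm, div_mul_cancel₀ _ h2]

end Pool.Agent.RB
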