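import Mathlib
import Pool.Agent.helper91.RB.Spec3

/-!
# Row rb:IDA (MP_24e2e7_nt): the index of the lattice of divisors modulo T
-/

set_option autoImplicit false

namespace Pool.Agent.RB

open NumberField IsDedekindDomain Module
open scoped nonZeroDivisors Real Classical

/-- in a commutative group `[K : K ∩ H]` divides `[L : L ∩ H]` for `K ≤ L` -/
theorem IDA_dvd {G : Type} [CommGroup G] (H K L : Subgroup G) (h : K ≤ L) :
    H.relIndex K ∣ H.relIndex L := by
  have h1 : H.relIndex (K ⊔ H) * (K ⊔ H).relIndex (L ⊔ H) = H.relIndex (L ⊔ H) :=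
    Subgroup.relIndex_mul_relIndex _ _ _ le_sup_right (sup_le_sup_right h _)
  rw [Subgroup.relIndex_sup_right, Subgroup.relIndex_sup_right] at h1
  exact ⟨_, h1.symm⟩

/-- the same for additive groups -/
theorem IDA_dvd_add {G : Type} [AddCommGroup G] (H K L : AddSubgroup G) (h : K ≤ L) :
    H.relIndex K ∣ H.relIndex L := by
  have h1 : H.relIndex (K ⊔ H) * (K ⊔ H).relIndex (L ⊔ H) = H.relIndex (L ⊔ H) :=
    AddSubgroup.relIndex_mul_relIndex _ _ _ le_sup_right (sup_le_sup_right h _)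
  rw [AddSubgroup.relIndex_sup_right, AddSubgroup.relIndex_sup_right] at h1
  exact ⟨_, h1.symm⟩

theorem IDA_ord_unit {K : Type} [Field K] [NumberField K] (u : (𝓞 K)ˣ) (P : HOS K) :
    ord P ((u : 𝓞 K) : K) = 0 := by
  have h1 : P.valuation K ((u : 𝓞 K) : K) ≤ 1 := P.valuation_le_one (u : 𝓞 K)
  have h2 : P.valuation K (((u⁻¹ : (𝓞 K)ˣ) : 𝓞 K) : K) ≤ 1 :=
    P.valuation_le_one ((u⁻¹ : (𝓞 K)ˣ) : 𝓞 K)
  have h3 : ((u : 𝓞 K) : K) * (((u⁻¹ : (𝓞 K)ˣ) : 𝓞 K) : K) = 1 := by
    rw [← map_mul, ← Units.val_mul, mul_inv_cancel, Units.val_one, map_one]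
  have h4 : P.valuation K ((u : 𝓞 K) : K) * P.valuation K (((u⁻¹ : (𝓞 K)ˣ) : 𝓞 K) : K) = 1 := by
    rw [← map_mul, h3, map_one]
  have h5 : P.valuation K ((u : 𝓞 K) : K) = 1 := by
    refine le_antisymm h1 ?_
    rw [← h4]
    exact mul_le_of_le_one_right' h2
  rw [ord, h5, WithZero.log_one, neg_zero]

section

variable {K : Type} [Field K] [NumberField K]

/-- the divisor as a function -/
noncomputable def IDA_phi (K : Type) [Field K] [NumberField K] : Additive Kˣ →+ (HOS K → ℤ) where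
  toFun x := fun P => ord P ((x.toMul : Kˣ) : K)
  map_zero' := by
    funext P
    exact ord_one P
  map_add' x y := by
    funext P
    exact ord_mul P (Units.ne_zero _) (Units.ne_zero _)

/-- the inclusion of the divisors in the functions -/
noncomputable def IDA_iota (K : Type) [Field K] [NumberField K] : Dv K →+ (HOS K → ℤ) where
  toFun D := fun P => D P
  map_zero' := rfl
  map_add' _ _ := rfl

theorem IDA_dM (c : K ≃+* K) (W T : Set (HOS K)) :
    dM c W T = ((Subgroup.toAddSubgroup (Ml c W T)).map (IDA_phi K)).comap (IDA_iota K) := by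
  ext D
  rw [AddSubgroup.mem_comap, AddSubgroup.mem_map]
  constructor
  · rintro ⟨x, hx, h⟩
    exact ⟨Additive.ofMul x, hx, funext fun P => (h P).symm⟩
  · rintro ⟨x, hx, h⟩
    exact ⟨x.toMul, hx, fun P => (congrFun h P).symm⟩

/-- the roots of unity of `K` -/
noncomputable def IDA_mu (K : Type) [Field K] [NumberField K] : Subgroup Kˣ :=
  (Units.torsion K).map (Units.map (algebraMap (𝓞 K) K : 𝓞 K →* K))

theorem IDA_mu_card : Nat.card (IDA_mu K) = Units.torsionOrder K := by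
  have hinj : Function.Injective (Units.map (algebraMap (𝓞 K) K : 𝓞 K →* K)) :=
    Units.map_injective (RingOfIntegers.coe_injective)
  exact (Nat.card_congr ((Units.torsion K).equivMapOfInjective _ hinj).toEquiv).symm

/-- the main divisibility: `[dM ∅ : dM T] w` divides `[Ml ∅ : Ml T]` -/
theorem IDA_main (c : K ≃+* K) (W T : Set (HOS K))
    (h1 : IDA_mu K ≤ Ml c W ∅) (h2 : ∀ x ∈ IDA_mu K, x ∈ Ml c W T → x = 1)
    (h3 : Ml c W T ≤ Ml c W ∅) :
    (dM c W T).relIndex (dM c W ∅) * Units.torsionOrder K ∣ (Ml c W T).relIndex (Ml c W ∅) := by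
  set A := Subgroup.toAddSubgroup (Ml c W T) with hA
  set B := Subgroup.toAddSubgroup (Ml c W ∅) with hB
  have e1 : (dM c W T).relIndex (dM c W ∅) ∣ (A.map (IDA_phi K)).relIndex (B.map (IDA_phi K)) := by
    rw [IDA_dM, IDA_dM, AddSubgroup.relIndex_comap]
    exact IDA_dvd_add _ _ _ (AddSubgroup.map_comap_le _ _)
  set U := Subgroup.toAddSubgroup (IDA_mu K) with hU
  have hker : U ≤ (IDA_phi K).ker := by
    intro x hx
    obtain ⟨u, hu, hx⟩ := hx
    rw [AddMonoidHom.mem_ker]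
    funext P
    show ord P ((x.toMul : Kˣ) : K) = 0
    have h4 : (x.toMul : Kˣ) = Units.map (algebraMap (𝓞 K) K : 𝓞 K →* K) u := hx.symm
    rw [h4]
    exact IDA_ord_unit u P
  have hAB : A ≤ B := h3
  have e2 : (A.map (IDA_phi K)).relIndex (B.map (IDA_phi K)) ∣ (A ⊔ U).relIndex B := by
    rw [AddSubgroup.relIndex_map_map]
    have e3 : B ⊔ (IDA_phi K).ker = B ⊔ (A ⊔ (IDA_phi K).ker) := by
      rw [← sup_assoc, sup_eq_left.2 hAB]
    rw [e3, AddSubgroup.relIndex_sup_right]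
    exact AddSubgroup.relIndex_dvd_of_le_left _ (sup_le_sup_left hker _)
  have e4 : A.relIndex (A ⊔ U) = Units.torsionOrder K := by
    rw [AddSubgroup.relIndex_sup_left]
    have e5 : A.relIndex U = (Ml c W T).relIndex (IDA_mu K) := rfl
    rw [e5]
    have e6 : (Ml c W T).relIndex (IDA_mu K) = (⊥ : Subgroup Kˣ).relIndex (IDA_mu K) := by
      rw [← Subgroup.inf_relIndex_right]
      have e7 : Ml c W T ⊓ IDA_mu K = ⊥ := by
        rw [eq_bot_iff]
        rintro x ⟨hx1, hx2⟩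
        exact Subgroup.mem_bot.2 (h2 x hx2 hx1)
      rw [e7]
    rw [e6, Subgroup.relIndex_bot_left, IDA_mu_card]
  have e8 : A.relIndex (A ⊔ U) * (A ⊔ U).relIndex B = A.relIndex B :=
    AddSubgroup.relIndex_mul_relIndex _ _ _ le_sup_left (sup_le hAB h1)
  have e9 : A.relIndex B = (Ml c W T).relIndex (Ml c W ∅) := rfl
  rw [← e9, ← e8, e4, mul_comm]
  exact mul_dvd_mul_left _ (e1.trans e2)

end

/-- the index of `Ml` divides the product -/
theorem IDA_prod (hRES : RES_stmt) (k K : Type) [Field k] [NumberField k] [Field K] [NumberField K]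
    [Algebra k K] [Algebra.IsQuadraticExtension k K] (c : K ≃+* K) (hc : c ≠ RingEquiv.refl K)
    (hck : ∀ x : k, c (algebraMap k K x) = algebraMap k K x) (W : Set (HOS K)) (T : Finset (HOS k))
    (h1 : ∀ q ∈ T, ty K q ≠ 0) (h2 : ∀ P ∈ W, P.under (𝓞 k) ∉ T) :
    (((Ml c W {P : HOS K | P.under (𝓞 k) ∈ T}).relIndex (Ml c W ∅) : ℕ) : ℤ) ∣
      ∏ q ∈ T, ((nm q : ℤ) - ty K q) := by
  induction T using Finset.induction_on with
  | empty =>
    have e : {P : HOS K | P.under (𝓞 k) ∈ (∅ : Finset (HOS k))} = ∅ := by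
      ext P
      simp
    rw [e, Subgroup.relIndex_self]
    simp
  | insert q T hq ih =>
    have ih' := ih (fun r hr => h1 r (Finset.mem_insert_of_mem hr))
      (fun P hP h => h2 P hP (Finset.mem_insert_of_mem h))
    rw [Finset.prod_insert hq]
    set X := Ml c {P : HOS K | P.under (𝓞 k) ≠ q} ∅ with hX
    set X1 := Ml c {P : HOS K | P.under (𝓞 k) ≠ q} {P : HOS K | P.under (𝓞 k) = q} with hX1
    set MT := Ml c W {P : HOS K | P.under (𝓞 k) ∈ T} with hMT
    have hres : ((X1.relIndex X : ℕ) : ℤ) ∣ (nm q : ℤ) - ty K q :=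
      hRES k K c hc hck q (h1 q (Finset.mem_insert_self _ _))
    have hW : ∀ P : HOS K, P.under (𝓞 k) = q → P ∉ W := by
      intro P hP hPW
      exact h2 P hPW (hP ▸ Finset.mem_insert_self _ _)
    have e1 : Ml c W {P : HOS K | P.under (𝓞 k) ∈ insert q T} = MT ⊓ X1 := by
      ext x
      constructor
      · rintro ⟨a1, a2, a3⟩
        refine ⟨⟨a1, a2, fun P hP => a3 P (Finset.mem_insert_of_mem hP)⟩, a1, fun P hP => ?_,
          fun P hP => a3 P ?_⟩
        · refine a2 P (hW P ?_)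
          by_contra h
          exact hP h
        · show P.under (𝓞 k) ∈ insert q T
          have hP' : P.under (𝓞 k) = q := hP
          rw [hP']
          exact Finset.mem_insert_self _ _
      · rintro ⟨⟨a1, a2, a3⟩, b1, b2, b3⟩
        refine ⟨a1, a2, fun P hP => ?_⟩
        have hP' : P.under (𝓞 k) ∈ insert q T := hP
        rcases Finset.mem_insert.1 hP' with h | h
        · exact b3 P h
        · exact a3 P h
    have e2 : MT ≤ Ml c W ∅ := by
      rintro x ⟨a1, a2, a3⟩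
      exact ⟨a1, a2, fun P hP => absurd hP (Set.notMem_empty P)⟩
    have e3 : MT ≤ X := by
      rintro x ⟨a1, a2, a3⟩
      refine ⟨a1, fun P hP => a2 P (hW P ?_), fun P hP => absurd hP (Set.notMem_empty P)⟩
      by_contra h
      exact hP h
    have e4 : (MT ⊓ X1).relIndex MT * MT.relIndex (Ml c W ∅) = (MT ⊓ X1).relIndex (Ml c W ∅) :=
      Subgroup.relIndex_mul_relIndex _ _ _ inf_le_left e2
    rw [e1, ← e4, Subgroup.inf_relIndex_left, Nat.cast_mul]
    refine mul_dvd_mul ((Int.natCast_dvd_natCast.2 (IDA_dvd X1 MT X e3)).trans hres) ih'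

/-- ROW rb:IDA. The index of the divisors of the elements congruent to 1 modulo `T`. -/
theorem IDA (hKRN : KRN_stmt) (hRES : RES_stmt) : IDA_stmt := by
  intro k K _ _ _ _ _ _ _ _ c hc hck W T h1 h2 h3
  have hk := (hKRN k K c hc hck).2
  have hmu : ∀ x ∈ IDA_mu K, ∃ ζ ∈ Units.torsion K, ((ζ : (𝓞 K)ˣ) : K) = x := by
    rintro x ⟨ζ, hζ, rfl⟩
    exact ⟨ζ, hζ, rfl⟩
  have a1 : IDA_mu K ≤ Ml c W ∅ := by
    intro x hx
    obtain ⟨ζ, hζ, hx⟩ := hmu x hx
    refine ⟨?_, fun P _ => ?_, fun P hP => absurd hP (Set.notMem_empty P)⟩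
    · rw [← hx]
      exact hk ζ hζ
    · rw [← hx]
      exact IDA_ord_unit ζ P
  have a2 : ∀ x ∈ IDA_mu K, x ∈ Ml c W {P : HOS K | P.under (𝓞 k) ∈ T} → x = 1 := by
    intro x hx hx'
    obtain ⟨ζ, hζ, hx⟩ := hmu x hx
    have h4 : ζ = 1 := h3 ζ hζ (fun P hP => by
      rw [hx]
      exact hx'.2.2 P hP)
    apply Units.ext
    rw [← hx, h4]
    simp
  have a3 : Ml c W {P : HOS K | P.under (𝓞 k) ∈ T} ≤ Ml c W ∅ := by
    rintro x ⟨b1, b2, b3⟩
    exact ⟨b1, b2, fun P hP => absurd hP (Set.notMem_empty P)⟩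
  have a4 := IDA_main c W {P : HOS K | P.under (𝓞 k) ∈ T} a1 a2 a3
  have a5 := IDA_prod hRES k K c hc hck W T h1 h2
  refine dvd_trans ?_ a5
  rw [← Nat.cast_mul]
  exact Int.natCast_dvd_natCast.2 a4

end Pool.Agent.RB
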